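import Pool.Agent.Q28.FG.Alt

/-!
# Voisin's conjecture on alternating products of zero-cycles: homologically trivial generators

Let `S` be a complex projective surface and `V_n(S) ⊆ CH_0(S^n)` (rational coefficients) the span of
the alternating sums `∑ sgn(σ) a_σ(1) × ⋯ × a_σ(n)` of zero-cycles in the kernel of the Albanese map.
`V_n(S)` is generated under correspondences by one, or by countably many, homologically trivial
cycles if and only if the projector on `Λ^n t_2(S)` is homologically equivalent to a cycle supported
over a divisor (which implies `n > p_g(S)`, the hypothesis of Voisin's conjecture, and is equivalent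
to it under the generalized Hodge conjecture).
-/

open CategoryTheory AlgebraicGeometry

universe u v w

namespace Pool.Agent.Results.MP_83b46e_ag.AlternatingConiveau

open Pool.Agent.H914 Pool.Agent.H914.VarClass Pool.Agent.H914.VarClass.Obj Pool.Agent.W492.BB
  Pool.Agent.TH133 Pool.Agent.Q28.PV Pool.Agent.Q28.AL Pool.Agent.Q28.FG

/-- **Alternating products of zero-cycles and homologically trivial generators.** Let `C` be the Chow
theory with rational coefficients and `H` a Weil cohomology theory on the smooth projective varieties
over the complex numbers (`hP`: known facts on algebraic cycles), `X = S^n` the power of the surface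
`S`, with the projections `pr i`, `n ≥ 1`, and `e` the projector of `Λ^n t_2(S)`. Equivalent: `e` is
the sum of a homologically trivial cycle `G` and of a cycle supported over a divisor; the span
`V_n(S)` of the alternating sums of elements of the Albanese kernel of `S` is generated by one
homologically trivial cycle; it is generated by countably many homologically trivial cycles. -/
theorem result {k : Type u} [Field k] {𝒱 : VarClass k} {C : TheoryData.{u, v, 0} 𝒱 ℚ}
    [IsChowProj C] {K : Type w} [Field K] {H : WeilTheoryData.{u, v, w} C K} [IsWeilProj H]
    (hP : Principles H) (S X : 𝒱.Obj) (n : ℕ) (pr : Fin n → (X ⟶ S)) (e : C.A (X.prod X))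
    (he : IsAltProjector H pr e) :
    [∃ G, HomTriv H (X.prod X) X.dim G ∧ e - G ∈ overDivisors C X X X.dim,
      OneGeneratorOf (HomTriv H) (altGroup H (C := C) pr),
      CountablyGeneratedSub (HomTriv H) (altGroup H (C := C) pr)].TFAE :=
  (alt_main hP pr he).1

end Pool.Agent.Results.MP_83b46e_ag.AlternatingConiveau
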