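import Pool.Agent.Q28.FG.Alt

/-!
# Voisin's conjecture on alternating products of zero-cycles and finite generation

Let `S` be a complex projective surface and `V_n(S) ⊆ CH_0(S^n)` (rational coefficients) the span of
the alternating sums `∑ sgn(σ) a_σ(1) × ⋯ × a_σ(n)` of zero-cycles in the kernel of the Albanese map.
Voisin's conjecture says that `V_n(S) = 0` for `n > p_g(S)`. For every `n ≥ 1` the following are
equivalent: `V_n(S) = 0`; `V_n(S)` is finitely generated over the ring of self-correspondences of
`S^n`; it is generated by one algebraically trivial cycle on a variety `V` under correspondences;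
it is contained in the group generated by countably many algebraically trivial cycles.
-/

open CategoryTheory AlgebraicGeometry

universe u v w

namespace Pool.Agent.Results.MP_83b46e_ag.AlternatingFiniteGeneration

open Pool.Agent.H914 Pool.Agent.H914.VarClass Pool.Agent.H914.VarClass.Obj Pool.Agent.W492.BB
  Pool.Agent.TH133 Pool.Agent.Q28.PV Pool.Agent.Q28.AL Pool.Agent.Q28.FG

/-- **Alternating products of zero-cycles and finite generation.** Let `C` be the Chow theory with
rational coefficients and `H` a Weil cohomology theory on the smooth projective varieties over the
complex numbers (`hP`: known facts on algebraic cycles), `X = S^n` the power of the surface `S`, with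
the projections `pr i`, `n ≥ 1`, and `e` the projector of `Λ^n t_2(S)`. Equivalent: all alternating
sums of `n` elements of the Albanese kernel vanish; their span `V_n(S)` is finitely generated over
`CH^(2n)(S^n × S^n)`; it is generated by one algebraically trivial cycle; by countably many
algebraically trivial cycles. -/
theorem result {k : Type u} [Field k] {𝒱 : VarClass k} {C : TheoryData.{u, v, 0} 𝒱 ℚ}
    [IsChowProj C] {K : Type w} [Field K] {H : WeilTheoryData.{u, v, w} C K} [IsWeilProj H]
    (hP : Principles H) (S X : 𝒱.Obj) (n : ℕ) (pr : Fin n → (X ⟶ S)) (e : C.A (X.prod X))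
    (he : IsAltProjector H pr e) :
    [∀ a : Fin n → C.A S, (∀ i, AlbKernel H S (a i)) → altSum pr a = 0,
      FinitelyGeneratedSub (altGroup H (C := C) pr),
      OneGeneratorOf (AlgTriv H) (altGroup H (C := C) pr),
      CountablyGeneratedSub (AlgTriv H) (altGroup H (C := C) pr)].TFAE :=
  (alt_main hP pr he).2

end Pool.Agent.Results.MP_83b46e_ag.AlternatingFiniteGeneration
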