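import Mathlib
import Pool.Agent.Q58.ChowDefs
import Pool.Agent.Q58.Product

/-!
# Voisin's conjecture for products of two curves

For smooth proper integral curves `C₁`, `C₂` of genera `g₁`, `g₂` over an algebraically closed
field, the surface `S = C₁ × C₂` has geometric genus `g₁ g₂`.  For `n > g₁ g₂` and zero-cycles
`a_1, ..., a_n` in the Albanese kernel of `S`, the signed sum of the exterior products
`a_{σ(1)} × ... × a_{σ(n)}` vanishes in the rational Chow group of zero-cycles of `S^n`.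
-/

namespace Pool.Agent.Results.MP_83b46e_ag.ProductOfCurves

open AlgebraicGeometry CategoryTheory Limits Q58.Chow

universe u

theorem result {k : Type u} [Field k] [IsAlgClosed k] (C₁ C₂ : Sch k) [IsCurve C₁] [IsCurve C₂]
    {g₁ g₂ : ℕ} (hg₁ : genus C₁ = g₁) (hg₂ : genus C₂ = g₂) {n : ℕ} (hn : g₁ * g₂ < n)
    (a : Fin n → (Pt (prodS C₁ C₂) →₀ ℚ))
    (h₁ : ∀ i, cl C₁ (push (fstS C₁ C₂) (a i)) = 0)
    (h₂ : ∀ i, cl C₂ (push (sndS C₁ C₂) (a i)) = 0) :
    cl (powS (prodS C₁ C₂) n)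
      (∑ σ : Equiv.Perm (Fin n), ((Equiv.Perm.sign σ : ℤ) : ℚ) • extCycle fun i => a (σ i)) =
      0 := by
  have h := voisin_product hg₁ hg₂ hn a (fun i => cl_eq_zero.1 (h₁ i))
    (fun i => cl_eq_zero.1 (h₂ i))
  rw [altTheta_apply] at h
  rw [map_sum, ← h]
  apply Finset.sum_congr rfl
  intro σ _
  rw [map_smul, theta_apply, Int.cast_smul_eq_zsmul]

end Pool.Agent.Results.MP_83b46e_ag.ProductOfCurves
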