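import Mathlib
import Pool.Agent.Q58.ChowDefs
import Pool.Agent.Q58.SymDefs
import Pool.Agent.Q58.SymSq

/-!
# Voisin's conjecture for symmetric squares of curves

Let `C` be a smooth proper integral curve of genus `g` over an algebraically closed field and
`π : C × C → S` a morphism invariant under the exchange of the factors, for instance the quotient
map onto the symmetric square of `C`, a surface with `p_g = g (g - 1) / 2` whose Albanese variety
is the Jacobian of `C`.  For `n > g (g - 1) / 2` the alternating sums of exterior products of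
`n` Albanese-trivial zero-cycles vanish.
-/

namespace Pool.Agent.Results.MP_83b46e_ag.SymmetricSquare

open AlgebraicGeometry CategoryTheory Limits Q58.Chow

universe u

theorem result {k : Type u} [Field k] [IsAlgClosed k] (C S : Sch k) [IsCurve C]
    (π : prodS C C ⟶ S) (hπ : swapS C ≫ π = π)
    {g : ℕ} (hg : genus C = g) {n : ℕ} (hn : g.choose 2 < n)
    (a : Fin n → (Pt S →₀ ℚ)) (b : Fin n → (Pt (prodS C C) →₀ ℚ))
    (hab : ∀ i, a i = push π (b i))
    (hb : ∀ i, cl C (push (fstS C C) (b i) + push (sndS C C) (b i)) = 0) :
    cl (powS S n)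
      (∑ σ : Equiv.Perm (Fin n), ((Equiv.Perm.sign σ : ℤ) : ℚ) • extCycle fun i => a (σ i)) =
      0 := by
  have h := voisin_sq π hg hn hπ b (fun i => cl_eq_zero.1 (hb i))
  rw [altTheta_apply] at h
  rw [map_sum, ← h]
  apply Finset.sum_congr rfl
  intro σ _
  rw [map_smul, theta_apply, Int.cast_smul_eq_zsmul]
  simp only [hab]

end Pool.Agent.Results.MP_83b46e_ag.SymmetricSquare
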